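import Pool.Agent.Helper44.RQ.Final

/-!
# Raynaud's question on etale pullbacks of base points of the determinant linear system

`SurfGp g` is the fundamental group of a closed oriented surface of genus `g`.  By uniformisation
every compact Riemann surface `X` of genus `g ≥ 2` is `ℍ/Γ` for an injective homomorphism
`Φ : SurfGp g → SL(2, ℝ)` with discrete cocompact image.  By the theorem of Narasimhan and Seshadri the
points of `SU_X(r)` are the flat bundles `E_V` of the homomorphisms `V : SurfGp g → SU(r)`.  For a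
subgroup `H` of finite index, `Y = ℍ/H → X` is an etale covering, `cτ + d` is the factor of automorphy of a
theta characteristic `κ` of `Y`, and the holomorphic `f` with `f(γτ) = χ(γ)(cτ+d)V(γ)f(τ)`, `γ ∈ H`, are
the elements of `H⁰(Y, π^*E_V ⊗ κ ⊗ L_χ)`, with `κ ⊗ L_χ` of degree `g(Y) - 1`.

The theorem: for every `r` there is one etale covering `Y → X` such that for every `E` of rank `r` some
line bundle `L` of degree `g(Y) - 1` on `Y` has `H⁰(Y, π^*E ⊗ L) = 0`.
-/

set_option autoImplicit false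
open scoped Matrix MatrixGroups Manifold
open UpperHalfPlane RQ

namespace Pool.Agent.Results.MP_27ef80_ag.EtalePullback

theorem result {g : ℕ} (Φ : SurfGp g →* SL(2, ℝ)) (hinj : Function.Injective Φ)
    (hD : ∀ K : Set ℍ, IsCompact K → {γ : SurfGp g | ∃ z ∈ K, Φ γ • z ∈ K}.Finite)
    (hC : ∃ K : Set ℍ, IsCompact K ∧ ∀ z : ℍ, ∃ γ : SurfGp g, Φ γ • z ∈ K) (r : ℕ) :
    ∃ H : Subgroup (SurfGp g), H.FiniteIndex ∧
      ∀ V : SurfGp g →* Matrix.unitaryGroup (Fin r) ℂ, ∃ χ : H →* Circle,
        ∀ f : ℍ → Fin r → ℂ, MDifferentiable 𝓘(ℂ) 𝓘(ℂ, Fin r → ℂ) f →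
          (∀ (γ : H) (z : ℍ), f (Φ γ • z) =
            ((χ γ : ℂ) * denom (Φ γ) z) • ((V γ : Matrix (Fin r) (Fin r) ℂ) *ᵥ f z)) →
          f = 0 :=
  RQ.final Φ hinj hD hC r

end Pool.Agent.Results.MP_27ef80_ag.EtalePullback
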